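import Mathlib

set_option autoImplicit false

namespace Pool.Agent.Results.MP_d5f0e7_al.OmegaFormula

/-- The numerical monoid generated by the interval `n, n + 1, ..., n + k`. -/
def Gam (n k : ℕ) : AddSubmonoid ℕ := AddSubmonoid.closure (Set.Icc n (n + k))

/-- `x` divides `y` in the monoid `G`: `y - x` lies in `G`. -/
def Dvd (G : AddSubmonoid ℕ) (x y : ℕ) : Prop := ∃ g ∈ G, x + g = y

/-- `m` has the property in the definition of the omega-value of `x`. -/
def OmegaBound (G : AddSubmonoid ℕ) (x m : ℕ) : Prop :=
  ∀ (r : ℕ) (a : Fin r → ℕ), (∀ j, a j ∈ G) → Dvd G x (∑ j, a j) →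
    ∃ T : Finset (Fin r), T.card ≤ m ∧ Dvd G x (∑ j ∈ T, a j)

/-- The omega-value: the least `m` with the property. -/
noncomputable def omega (G : AddSubmonoid ℕ) (x : ℕ) : ℕ := sInf {m | OmegaBound G x m}

/-- The explicit formula, with `q = ⌊(n - 2) / k⌋`. -/
def formula (n k i : ℕ) : ℕ :=
  if (n - 2) % k = 0 then
    if i = 0 then
      if ((n - 2) / k + 1) ∣ (k - 1) then (n - 2) / k + 2 else (n - 2) / k + 1
    else
      if ((n - 2) / k + 2) ∣ (i - 1) then (n - 2) / k + 3 else (n - 2) / k + 2
  else
    if i = 0 then (n - 2) / k + 2 else (n - 2) / k + 3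

theorem mem_Gam (n k y : ℕ) : y ∈ Gam n k ↔ ∃ m, m * n ≤ y ∧ y ≤ m * (n + k) := by
  constructor
  · intro h
    induction h using AddSubmonoid.closure_induction with
    | mem x hx => exact ⟨1, by simpa using hx.1, by simpa using hx.2⟩
    | zero => exact ⟨0, by simp, by simp⟩
    | add x y _ _ hx hy =>
      obtain ⟨a, ha, ha'⟩ := hx
      obtain ⟨b, hb, hb'⟩ := hy
      exact ⟨a + b, by rw [add_mul]; omega, by rw [add_mul]; omega⟩
  · rintro ⟨m, h1, h2⟩
    induction m generalizing y with
    | zero =>
      have : y = 0 := by simpa using h2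
      rw [this]; exact zero_mem _
    | succ m ih =>
      rw [add_mul, one_mul] at h1 h2
      have hmk : m * n ≤ m * (n + k) := Nat.mul_le_mul_left _ (by omega)
      by_cases hc : y ≤ m * (n + k) + n
      · have : y = n + (y - n) := by omega
        rw [this]
        exact add_mem (AddSubmonoid.subset_closure ⟨le_rfl, by omega⟩)
          (ih (y - n) (by omega) (by omega))
      · have : y = (y - m * (n + k)) + m * (n + k) := by omega
        rw [this]
        exact add_mem (AddSubmonoid.subset_closure ⟨by omega, by omega⟩)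
          (ih _ hmk le_rfl)

section
variable {n k q r : ℕ}

theorem mem_of_le (_hk : 1 ≤ k) (hn : n = q * k + r + 2) (hr : r < k) (y : ℕ)
    (hy : (q + 1) * n ≤ y) : y ∈ Gam n k := by
  rw [mem_Gam]
  have hn0 : 0 < n := by omega
  refine ⟨y / n, Nat.div_mul_le_self y n, ?_⟩
  have h1 : q + 1 ≤ y / n := (Nat.le_div_iff_mul_le hn0).2 hy
  have h2 : y < y / n * n + n := by
    have := Nat.lt_div_mul_add hn0 (a := y)
    exact this
  have h3 : (q + 1) * k ≤ y / n * k := Nat.mul_le_mul_right _ h1
  nlinarith

theorem gap {M g : ℕ} (h1 : M * (n + k) < g) (h2 : g < (M + 1) * n) : g ∉ Gam n k := by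
  rw [mem_Gam]
  rintro ⟨m, h3, h4⟩
  have h5 : M < m := by
    by_contra hc
    have : m * (n + k) ≤ M * (n + k) := Nat.mul_le_mul_right _ (by omega)
    omega
  have h6 : (M + 1) * n ≤ m * n := Nat.mul_le_mul_right _ h5
  omega

theorem not_dvd {x p g M : ℕ} (hg : x + g = p) (h1 : M * (n + k) < g)
    (h2 : g < (M + 1) * n) : ¬ Dvd (Gam n k) x p := by
  rintro ⟨g', hg', e⟩
  have : g' = g := by omega
  subst this
  exact gap h1 h2 hg'

theorem le_of_mem (y : ℕ) (hy : y ∈ Gam n k) (h0 : y ≠ 0) : n ≤ y := by
  rw [mem_Gam] at hy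
  obtain ⟨m, h1, h2⟩ := hy
  rcases Nat.eq_zero_or_pos m with h | h
  · subst h; simp at h2; exact absurd h2 h0
  · have : 1 * n ≤ m * n := Nat.mul_le_mul_right _ h
    omega

/-- Lower bounds from an explicit family. -/
theorem lower (x t c u : ℕ) (hu : u ≤ t) (hc : c ≤ k) (hc' : u ≠ 0 → c + 1 ≤ k)
    (h1 : Dvd (Gam n k) x (t * (n + c) + u))
    (h2 : ∀ p, p + (n + c) = t * (n + c) + u → ¬ Dvd (Gam n k) x p)
    (h3 : u ≠ 0 → ∀ p, p + (n + c + 1) = t * (n + c) + u → ¬ Dvd (Gam n k) x p)
    (m : ℕ) (hm : OmegaBound (Gam n k) x m) : t ≤ m := by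
  by_contra hlt
  push Not at hlt
  set a : Fin t → ℕ := fun j => n + c + if j.val < u then 1 else 0 with ha
  have hmem : ∀ j, a j ∈ Gam n k := by
    intro j
    refine AddSubmonoid.subset_closure ⟨by simp only [ha]; omega, ?_⟩
    simp only [ha]
    split_ifs with h
    · have := hc' (by omega); omega
    · omega
  have hsum : ∑ j, a j = t * (n + c) + u := by
    simp only [ha, Finset.sum_add_distrib, Finset.sum_const, Finset.card_univ, Fintype.card_fin,
      smul_eq_mul]
    have : ∑ j : Fin t, (if j.val < u then 1 else 0) = u := by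
      rw [Finset.sum_boole]
      have h4 : (Finset.univ.filter fun j : Fin t => j.val < u).card = u := by
        have h5 : (Finset.univ.filter fun j : Fin t => j.val < u).card = min t u :=
          Fin.card_filter_val_lt
        rw [min_eq_right hu] at h5
        exact h5
      exact_mod_cast h4
    rw [this]
    ring
  obtain ⟨T, hT, g, hg, hgT⟩ := hm t a hmem (by rw [hsum]; exact h1)
  obtain ⟨j, hj⟩ : ∃ j, j ∉ T := by
    by_contra hcon
    push Not at hcon
    have : T = Finset.univ := Finset.eq_univ_iff_forall.2 hcon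
    rw [this, Finset.card_univ, Fintype.card_fin] at hT
    omega
  have hsub : T ⊆ Finset.univ.erase j := fun l hl =>
    Finset.mem_erase.2 ⟨fun h => hj (h ▸ hl), Finset.mem_univ _⟩
  have hdv : Dvd (Gam n k) x (∑ l ∈ Finset.univ.erase j, a l) := by
    refine ⟨g + ∑ l ∈ (Finset.univ.erase j) \ T, a l, add_mem hg (sum_mem fun l _ => hmem l), ?_⟩
    rw [← add_assoc, hgT, add_comm, Finset.sum_sdiff hsub]
  have hers : ∑ l ∈ Finset.univ.erase j, a l + a j = t * (n + c) + u := by
    rw [Finset.sum_erase_add _ _ (Finset.mem_univ j), hsum]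
  by_cases hju : j.val < u
  · have : a j = n + c + 1 := by simp [ha, hju]
    rw [this] at hers
    exact h3 (by omega) _ hers hdv
  · have : a j = n + c := by simp [ha, hju]
    rw [this] at hers
    exact h2 _ hers hdv

/-- Upper bounds: reduction to minimal families. -/
theorem upper (x v : ℕ)
    (h : ∀ (ι : Type) [DecidableEq ι] (T : Finset ι) (a : ι → ℕ), (∀ j ∈ T, n ≤ a j) →
      (∀ j ∈ T, ¬ Dvd (Gam n k) x (∑ l ∈ T.erase j, a l)) → T.card ≤ v) :
    OmegaBound (Gam n k) x v := by
  intro r a ha hdiv
  have hex : ∃ t, ∃ T : Finset (Fin r), T.card = t ∧ Dvd (Gam n k) x (∑ j ∈ T, a j) :=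
    ⟨_, Finset.univ, rfl, hdiv⟩
  classical
  obtain ⟨T, hTc, hT⟩ := Nat.find_spec hex
  have hmin : ∀ j ∈ T, ¬ Dvd (Gam n k) x (∑ l ∈ T.erase j, a l) := by
    intro j hj hd
    refine Nat.find_min hex (m := (T.erase j).card) ?_ ⟨_, rfl, hd⟩
    rw [← hTc]
    exact Finset.card_lt_card (Finset.erase_ssubset hj)
  refine ⟨T, h (Fin r) T a ?_ hmin, hT⟩
  intro j hj
  apply le_of_mem _ (ha j)
  intro h0
  apply hmin j hj
  have : ∑ l ∈ T.erase j, a l = ∑ l ∈ T, a l := by
    rw [← Finset.sum_erase_add _ _ hj, h0, add_zero]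
  rw [this]
  exact hT

theorem sum_ge {ι : Type} [DecidableEq ι] (T : Finset ι) (a : ι → ℕ) (ha : ∀ j ∈ T, n ≤ a j)
    (j : ι) (hj : j ∈ T) : (T.card - 1) * n ≤ ∑ l ∈ T.erase j, a l := by
  rw [← Finset.card_erase_of_mem hj, ← smul_eq_mul]
  exact Finset.card_nsmul_le_sum _ _ _ fun l hl => ha l (Finset.mem_of_mem_erase hl)

theorem sum_lt (hk : 1 ≤ k) (hn : n = q * k + r + 2) (hr : r < k) {x p : ℕ}
    (h : ¬ Dvd (Gam n k) x p) : p < x + (q + 1) * n := by
  by_contra hc
  push Not at hc
  exact h ⟨p - x, mem_of_le hk hn hr _ (by omega), by omega⟩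

theorem upper_gen (hk : 1 ≤ k) (hkn : k < n) (hn : n = q * k + r + 2) (hr : r < k) (i : ℕ)
    (hi : i ≤ k) : OmegaBound (Gam n k) (n + i) (q + 3) := by
  apply upper
  intro ι _ T a ha hmin
  by_contra hc
  push Not at hc
  obtain ⟨j, hj⟩ : T.Nonempty := Finset.card_pos.1 (by omega)
  have h1 := sum_ge T a ha j hj
  have h2 := sum_lt hk hn hr (hmin j hj)
  have h3 : (q + 3) * n ≤ (T.card - 1) * n := Nat.mul_le_mul_right _ (by omega)
  nlinarith

theorem upper_zero (hk : 1 ≤ k) (hn : n = q * k + r + 2) (hr : r < k) :
    OmegaBound (Gam n k) n (q + 2) := by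
  apply upper
  intro ι _ T a ha hmin
  by_contra hc
  push Not at hc
  obtain ⟨j, hj⟩ : T.Nonempty := Finset.card_pos.1 (by omega)
  have h1 := sum_ge T a ha j hj
  have h2 := sum_lt hk hn hr (hmin j hj)
  have h3 : (q + 2) * n ≤ (T.card - 1) * n := Nat.mul_le_mul_right _ (by omega)
  nlinarith

/-- In the tight case all members are equal. -/
theorem tight (hk : 1 ≤ k) (hn : n = q * k + 2) (x s : ℕ)
    {ι : Type} [DecidableEq ι] (T : Finset ι) (a : ι → ℕ) (ha : ∀ j ∈ T, n ≤ a j)
    (hmin : ∀ j ∈ T, ¬ Dvd (Gam n k) x (∑ l ∈ T.erase j, a l)) (hT : T.card = s + 1)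
    (hlow : x + q * n ≤ s * n) :
    ∃ b, n ≤ b ∧ s * b + 1 = x + (q + 1) * n := by
  have key : ∀ j ∈ T, ∑ l ∈ T.erase j, a l + 1 = x + (q + 1) * n := by
    intro j hj
    have h1 := sum_ge T a ha j hj
    rw [hT, Nat.add_sub_cancel] at h1
    have h2 := sum_lt (r := 0) hk (by omega) (by omega) (hmin j hj)
    by_contra hne
    apply hmin j hj
    refine ⟨∑ l ∈ T.erase j, a l - x, ?_, by omega⟩
    rw [mem_Gam]
    refine ⟨q, by omega, ?_⟩
    have h3 : (q + 1) * n = q * (n + k) + 2 := by rw [hn]; ring
    omega
  obtain ⟨j, hj⟩ : T.Nonempty := Finset.card_pos.1 (by omega)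
  refine ⟨a j, ha j hj, ?_⟩
  have heq : ∀ l ∈ T, a l = a j := by
    intro l hl
    have e1 := key l hl
    have e2 := key j hj
    have e3 := Finset.sum_erase_add T a hl
    have e4 := Finset.sum_erase_add T a hj
    omega
  have : ∑ l ∈ T.erase j, a l = s * a j := by
    rw [Finset.sum_congr rfl fun l hl => heq l (Finset.mem_of_mem_erase hl), Finset.sum_const,
      Finset.card_erase_of_mem hj, hT, Nat.add_sub_cancel, smul_eq_mul]
  rw [← this]
  exact key j hj

end

/-- The omega-values of all minimal generators of every numerical monoid generated by an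
interval. -/
theorem result (n k i : ℕ) (hn : 2 ≤ n) (hk : 1 ≤ k) (hkn : k ≤ n - 1) (hi : i ≤ k) :
    IsLeast {m | OmegaBound (Gam n k) (n + i) m} (formula n k i) ∧
      omega (Gam n k) (n + i) = formula n k i := by
  suffices h : IsLeast {m | OmegaBound (Gam n k) (n + i) m} (formula n k i) from
    ⟨h, h.csInf_eq⟩
  obtain ⟨q, hq⟩ : ∃ q, q = (n - 2) / k := ⟨_, rfl⟩
  obtain ⟨r, hr⟩ : ∃ r, r = (n - 2) % k := ⟨_, rfl⟩
  have hrk : r < k := hr ▸ Nat.mod_lt _ hk
  have hnq : n = q * k + r + 2 := by
    have := Nat.div_add_mod (n - 2) k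
    rw [← hq, ← hr, mul_comm] at this
    omega
  have hkn' : k < n := by omega
  unfold formula
  rw [← hq, ← hr]
  by_cases hr0 : r = 0
  · rw [if_pos hr0]
    subst hr0
    rw [add_zero] at hnq
    by_cases hi0 : i = 0
    · subst hi0
      rw [if_pos rfl, add_zero]
      by_cases hd : q + 1 ∣ k - 1
      · rw [if_pos hd]
        refine ⟨upper_zero hk (r := 0) (by omega) hrk, ?_⟩
        obtain ⟨d, hd⟩ := hd
        -- (q + 1) c = q k + 1 with c = k - d
        have hdk : d ≤ k - 1 := by rw [hd]; exact Nat.le_mul_of_pos_left _ (by omega)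
        obtain ⟨c, hc⟩ : ∃ c, k = c + d := ⟨k - d, by omega⟩
        have hc1 : (q + 1) * c = q * k + 1 := by
          have : k = (q + 1) * d + 1 := by omega
          nlinarith
        intro m hm
        refine lower n (q + 2) c 0 (by omega) (by omega) (by simp) ?_ ?_ (by simp) m hm
        · refine ⟨(q + 2) * (n + c) - n, mem_of_le hk (r := 0) (by omega) hrk _ ?_, ?_⟩
          · have : (q + 2) * (n + c) = (q + 1) * n + n + (q + 2) * c := by ring
            omega
          · have : (q + 2) * (n + c) = (q + 1) * n + n + (q + 2) * c := by ring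
            omega
        · intro p hp
          have e1 : (q + 2) * (n + c) = (q + 1) * n + (q + 1) * c + (n + c) := by ring
          have e2 : (q + 1) * n = q * (n + k) + 2 := by rw [hnq]; ring
          refine not_dvd (g := (q + 1) * n - 1) (M := q) ?_ ?_ ?_
          · omega
          · omega
          · omega
      · rw [if_neg hd]
        have hq1 : 1 ≤ q := by
          rcases Nat.eq_zero_or_pos q with h | h
          · subst h; simp at hd
          · exact h
        have hk2 : 2 ≤ k := by
          rcases Nat.lt_or_ge k 2 with h | h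
          · have : k = 1 := by omega
            subst this; simp at hd
          · exact h
        refine ⟨?_, ?_⟩
        · apply upper
          intro ι _ T a ha hmin
          by_contra hc
          push Not at hc
          obtain ⟨j, hj⟩ : T.Nonempty := Finset.card_pos.1 (by omega)
          have h1 := sum_ge T a ha j hj
          have h2 := sum_lt (r := 0) hk (by omega) hrk (hmin j hj)
          have hTc : T.card = q + 1 + 1 := by
            by_contra hne
            have h3 : (q + 2) * n ≤ (T.card - 1) * n := Nat.mul_le_mul_right _ (by omega)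
            nlinarith
          obtain ⟨b, hb, e⟩ := tight hk hnq n (q + 1) T a ha hmin hTc (by nlinarith)
          apply hd
          obtain ⟨c, rfl⟩ : ∃ c, b = n + c := ⟨b - n, by omega⟩
          have e2 : (q + 1) * c = q * k + 1 := by nlinarith
          have e3 : (q + 1) * k = (q + 1) * c + (k - 1) := by
            have : (q + 1) * k = q * k + k := by ring
            omega
          exact (Nat.dvd_add_right (Dvd.intro c rfl)).1 (Dvd.intro k e3)
        · intro m hm
          refine lower n (q + 1) k 0 (by omega) le_rfl (by simp) ?_ ?_ (by simp) m hm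
          · refine ⟨(q + 1) * (n + k) - n, mem_of_le hk (r := 0) (by omega) hrk _ ?_, ?_⟩
            · have e1 : (q + 1) * (n + k) = q * n + n + q * k + k := by ring
              have e2 : (q + 1) * n = q * n + n := by ring
              omega
            · have e1 : (q + 1) * (n + k) = q * n + n + q * k + k := by ring
              omega
          · intro p hp
            obtain ⟨s, rfl⟩ : ∃ s, q = s + 1 := ⟨q - 1, by omega⟩
            have e1 : (s + 1 + 1) * (n + k) = s * (n + k) + (n + k) + (n + k) := by ring
            have e2 : (s + 1) * n = s * n + n := by ring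
            have e3 : (s + 1) * k = s * k + k := by ring
            have e4 : s * (n + k) = s * n + s * k := by ring
            refine not_dvd (g := s * (n + k) + k) (M := s) ?_ ?_ ?_
            · omega
            · omega
            · omega
    · rw [if_neg hi0]
      by_cases hd : q + 2 ∣ i - 1
      · rw [if_pos hd]
        refine ⟨upper_gen hk hkn' (r := 0) (by omega) hrk i hi, ?_⟩
        obtain ⟨c, hc⟩ := hd
        have hck : c ≤ i - 1 := by rw [hc]; exact Nat.le_mul_of_pos_left _ (by omega)
        intro m hm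
        have e1 : (q + 3) * (n + c) = (q + 2) * n + (q + 2) * c + (n + c) := by ring
        have e2 : (q + 1) * n = q * (n + k) + 2 := by rw [hnq]; ring
        have e3 : (q + 2) * n = (q + 1) * n + n := by ring
        refine lower (n + i) (q + 3) c 0 (by omega) (by omega) (by simp) ?_ ?_ (by simp) m hm
        · exact ⟨(q + 3) * (n + c) - (n + i), mem_of_le hk (r := 0) (by omega) hrk _ (by omega),
            by omega⟩
        · intro p hp
          exact not_dvd (g := (q + 1) * n - 1) (M := q) (by omega) (by omega) (by omega)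
      · rw [if_neg hd]
        have hi2 : 2 ≤ i := by
          rcases Nat.lt_or_ge i 2 with h | h
          · have : i = 1 := by omega
            subst this; simp at hd
          · exact h
        refine ⟨?_, ?_⟩
        · apply upper
          intro ι _ T a ha hmin
          by_contra hc
          push Not at hc
          obtain ⟨j, hj⟩ : T.Nonempty := Finset.card_pos.1 (by omega)
          have h1 := sum_ge T a ha j hj
          have h2 := sum_lt (r := 0) hk (by omega) hrk (hmin j hj)
          have hTc : T.card = q + 2 + 1 := by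
            by_contra hne
            have h3 : (q + 3) * n ≤ (T.card - 1) * n := Nat.mul_le_mul_right _ (by omega)
            nlinarith
          obtain ⟨b, hb, e⟩ := tight hk hnq (n + i) (q + 2) T a ha hmin hTc (by nlinarith)
          apply hd
          obtain ⟨c, rfl⟩ : ∃ c, b = n + c := ⟨b - n, by omega⟩
          refine ⟨c, ?_⟩
          have e2 : (q + 2) * (n + c) = (q + 1) * n + n + (q + 2) * c := by ring
          omega
        · intro m hm
          have e2 : (q + 1) * n = q * n + n := by ring
          have e3 : (q + 2) * n = q * n + n + n := by ring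
          have e4 : q * (n + k) = q * n + q * k := by ring
          refine lower (n + i) (q + 2) 0 0 (by omega) (by omega) (by simp) ?_ ?_ (by simp) m hm
          · refine ⟨(q + 2) * (n + 0) - (n + i), ?_, ?_⟩
            · rw [mem_Gam]
              refine ⟨q, ?_, ?_⟩
              · rw [add_zero]; omega
              · rw [add_zero]; omega
            · rw [add_zero]; omega
          · intro p hp
            rw [add_zero] at hp
            rintro ⟨g, hg, e⟩
            rw [mem_Gam] at hg
            obtain ⟨M, h1, h2⟩ := hg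
            have h3 : M < q := by
              by_contra hcon
              have : q * n ≤ M * n := Nat.mul_le_mul_right _ (by omega)
              omega
            obtain ⟨s, rfl⟩ : ∃ s, q = s + 1 := ⟨q - 1, by omega⟩
            have h4 : M * (n + k) ≤ s * (n + k) := Nat.mul_le_mul_right _ (by omega)
            have e5 : s * (n + k) = s * n + s * k := by ring
            have e6 : (s + 1) * n = s * n + n := by ring
            have e7 : (s + 1) * k = s * k + k := by ring
            omega
  · rw [if_neg hr0]
    have hk2 : 2 ≤ k := by omega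
    by_cases hi0 : i = 0
    · subst hi0
      rw [if_pos rfl, add_zero]
      refine ⟨upper_zero hk hnq hrk, ?_⟩
      intro m hm
      obtain ⟨c, u, hdm, hlt⟩ : ∃ c u, (q + 1) * c + u = q * k + 2 ∧ u < q + 1 :=
        ⟨_, _, Nat.div_add_mod (q * k + 2) (q + 1), Nat.mod_lt _ (by omega)⟩
      have e0 : (q + 1) * k = q * k + k := by ring
      have hck : c ≤ k := by
        by_contra hcon
        have : (q + 1) * (k + 1) ≤ (q + 1) * c := Nat.mul_le_mul_left _ (by omega)
        have e1 : (q + 1) * (k + 1) = (q + 1) * k + (q + 1) := by ring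
        omega
      have hck' : u ≠ 0 → c + 1 ≤ k := by
        intro hu
        by_contra hcon
        have : (q + 1) * k ≤ (q + 1) * c := Nat.mul_le_mul_left _ (by omega)
        omega
      have e1 : (q + 2) * (n + c) = (q + 1) * n + (q + 1) * c + (n + c) := by ring
      have e2 : (q + 1) * n = q * n + n := by ring
      have e3 : q * (n + k) = q * n + q * k := by ring
      refine lower n (q + 2) c u (by omega) hck hck' ?_ ?_ ?_ m hm
      · exact ⟨(q + 2) * (n + c) + u - n, mem_of_le hk hnq hrk _ (by omega), by omega⟩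
      · intro p hp
        exact not_dvd (g := q * n + q * k + 2) (M := q) (by omega) (by omega) (by omega)
      · intro _ p hp
        exact not_dvd (g := q * n + q * k + 1) (M := q) (by omega) (by omega) (by omega)
    · rw [if_neg hi0]
      refine ⟨upper_gen hk hkn' hnq hrk i hi, ?_⟩
      intro m hm
      obtain ⟨c, u, hdm, hlt⟩ : ∃ c u, (q + 2) * c + u = i - 1 ∧ u < q + 2 :=
        ⟨_, _, Nat.div_add_mod (i - 1) (q + 2), Nat.mod_lt _ (by omega)⟩
      have hcc : c ≤ (q + 2) * c := Nat.le_mul_of_pos_left _ (by omega)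
      have e1 : (q + 3) * (n + c) = (q + 2) * n + (q + 2) * c + (n + c) := by ring
      have e2 : (q + 2) * n = q * n + n + n := by ring
      have e3 : q * (n + k) = q * n + q * k := by ring
      have e4 : (q + 1) * n = q * n + n := by ring
      refine lower (n + i) (q + 3) c u (by omega) (by omega) (by omega) ?_ ?_ ?_ m hm
      · exact ⟨(q + 3) * (n + c) + u - (n + i), mem_of_le hk hnq hrk _ (by omega), by omega⟩
      · intro p hp
        exact not_dvd (g := q * n + n - 1) (M := q) (by omega) (by omega) (by omega)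
      · intro _ p hp
        exact not_dvd (g := q * n + n - 2) (M := q) (by omega) (by omega) (by omega)

end Pool.Agent.Results.MP_d5f0e7_al.OmegaFormula
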